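import Pool.Agent.H6.NB.Targets

/-!
# The hybrid argument for quantum query algorithms
-/

set_option autoImplicit false

namespace Pool.Agent.H59.NB.BBV

open Pool.Agent.H6.NB Finset
open scoped Matrix

/-- The vector as an element of Euclidean space. -/
noncomputable def ev {ι : Type} (v : ι → ℂ) : EuclideanSpace ℂ ι := WithLp.toLp 2 v

theorem ev_apply {ι : Type} (v : ι → ℂ) (i : ι) : ev v i = v i := rfl

theorem ev_sub {ι : Type} (v w : ι → ℂ) : ev (v - w) = ev v - ev w := by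
  ext i
  rfl

theorem ev_add {ι : Type} (v w : ι → ℂ) : ev (v + w) = ev v + ev w := by
  ext i
  rfl

theorem norm_ev_sq {ι : Type} [Fintype ι] (v : ι → ℂ) : ‖ev v‖ ^ 2 = ∑ i, ‖v i‖ ^ 2 := by
  rw [EuclideanSpace.norm_sq_eq]
  rfl

/-- Unitary matrices preserve the norm. -/
theorem norm_unitary {ι : Type} [Fintype ι] [DecidableEq ι] (U : Matrix ι ι ℂ)
    (hU : U ∈ Matrix.unitaryGroup ι ℂ) (v : ι → ℂ) : ‖ev (U *ᵥ v)‖ = ‖ev v‖ := by
  have h0 : ∀ w : ι → ℂ, ((‖ev w‖ ^ 2 : ℝ) : ℂ) = star w ⬝ᵥ w := by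
    intro w
    rw [norm_ev_sq, Complex.ofReal_sum]
    unfold dotProduct
    refine Finset.sum_congr rfl fun i _ => ?_
    rw [Pi.star_apply]
    simp [Complex.conj_mul']
  have h1 : star (U *ᵥ v) ⬝ᵥ (U *ᵥ v) = star v ⬝ᵥ v := by
    rw [Matrix.star_mulVec, Matrix.dotProduct_mulVec, Matrix.vecMul_vecMul]
    have h2 : Uᴴ * U = 1 := Matrix.mem_unitaryGroup_iff'.1 hU
    rw [h2, Matrix.vecMul_one]
  have h3 : ((‖ev (U *ᵥ v)‖ ^ 2 : ℝ) : ℂ) = ((‖ev v‖ ^ 2 : ℝ) : ℂ) := by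
    rw [h0, h0, h1]
  have h4 : ‖ev (U *ᵥ v)‖ ^ 2 = ‖ev v‖ ^ 2 := Complex.ofReal_injective h3
  exact (pow_left_inj₀ (norm_nonneg _) (norm_nonneg _) two_ne_zero).1 h4

theorem norm_phase (Q : QAlg) (O : List Bool → Bool) (i : Q.basis) : ‖Q.phase O i‖ = 1 := by
  unfold QAlg.phase
  cases Q.query i with
  | none => simp
  | some w =>
    simp only
    split_ifs <;> simp

theorem norm_oracle (Q : QAlg) (O : List Bool → Bool) (v : Q.basis → ℂ) :
    ‖ev (fun i => Q.phase O i * v i)‖ = ‖ev v‖ := by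
  have h : ‖ev (fun i => Q.phase O i * v i)‖ ^ 2 = ‖ev v‖ ^ 2 := by
    rw [norm_ev_sq, norm_ev_sq]
    refine Finset.sum_congr rfl fun i _ => ?_
    rw [norm_mul, norm_phase, one_mul]
  exact (pow_left_inj₀ (norm_nonneg _) (norm_nonneg _) two_ne_zero).1 h

theorem norm_state (Q : QAlg) (O : List Bool → Bool) (t : ℕ) : ‖ev (Q.state O t)‖ = 1 := by
  induction t with
  | zero =>
    rw [QAlg.state, norm_unitary _ (Q.unitary 0)]
    have h := norm_ev_sq Q.init
    rw [Q.norm_init] at h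
    exact (pow_eq_one_iff_of_nonneg (norm_nonneg _) two_ne_zero).1 h
  | succ t ih => rw [QAlg.state, norm_unitary _ (Q.unitary _), norm_oracle, ih]

/-- The weight of a state on the basis states at which two oracles differ. -/
noncomputable def dw (Q : QAlg) (O O' : List Bool → Bool) (v : Q.basis → ℂ) : ℝ :=
  ∑ i, if Q.phase O' i ≠ Q.phase O i then ‖v i‖ ^ 2 else 0

theorem dw_nonneg (Q : QAlg) (O O' : List Bool → Bool) (v : Q.basis → ℂ) : 0 ≤ dw Q O O' v := by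
  unfold dw
  refine Finset.sum_nonneg fun i _ => ?_
  split_ifs <;> positivity

theorem norm_diff_sq (Q : QAlg) (O O' : List Bool → Bool) (v : Q.basis → ℂ) :
    ‖ev ((fun i => Q.phase O' i * v i) - fun i => Q.phase O i * v i)‖ ^ 2 ≤
      4 * dw Q O O' v := by
  rw [norm_ev_sq, dw, Finset.mul_sum]
  refine Finset.sum_le_sum fun i _ => ?_
  have h1 : ((fun i => Q.phase O' i * v i) - fun i => Q.phase O i * v i) i =
      (Q.phase O' i - Q.phase O i) * v i := by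
    rw [Pi.sub_apply, sub_mul]
  rw [h1, norm_mul, mul_pow]
  split_ifs with h
  · have h2 : ‖Q.phase O' i - Q.phase O i‖ ≤ 2 := by
      calc _ ≤ ‖Q.phase O' i‖ + ‖Q.phase O i‖ := norm_sub_le _ _
        _ = 2 := by rw [norm_phase, norm_phase]; norm_num
    have h3 : ‖Q.phase O' i - Q.phase O i‖ ^ 2 ≤ 4 := by
      nlinarith [norm_nonneg (Q.phase O' i - Q.phase O i)]
    exact mul_le_mul_of_nonneg_right h3 (by positivity)
  · rw [not_not] at h
    rw [h]
    simp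

theorem norm_state_sub (Q : QAlg) (O O' : List Bool → Bool) (t : ℕ) :
    ‖ev (Q.state O' t - Q.state O t)‖ ≤
      ∑ s ∈ range t, √(4 * dw Q O O' (Q.state O s)) := by
  induction t with
  | zero => simp [QAlg.state, ev]
  | succ t ih =>
    rw [QAlg.state, QAlg.state, ← Matrix.mulVec_sub, norm_unitary _ (Q.unitary _),
      Finset.sum_range_succ]
    have e : ((fun i => Q.phase O' i * Q.state O' t i) - fun i => Q.phase O i * Q.state O t i) =
        (fun i => Q.phase O' i * (Q.state O' t - Q.state O t) i) +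
          ((fun i => Q.phase O' i * Q.state O t i) - fun i => Q.phase O i * Q.state O t i) := by
      funext i
      simp only [Pi.sub_apply, Pi.add_apply]
      ring
    rw [e, ev_add]
    refine (norm_add_le _ _).trans (add_le_add ?_ ?_)
    · rw [norm_oracle]
      exact ih
    · exact Real.le_sqrt_of_sq_le (norm_diff_sq Q O O' _)

theorem norm_state_sub_sq (Q : QAlg) (O O' : List Bool → Bool) (t : ℕ) :
    ‖ev (Q.state O' t - Q.state O t)‖ ^ 2 ≤
      4 * t * ∑ s ∈ range t, dw Q O O' (Q.state O s) := by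
  have h1 := norm_state_sub Q O O' t
  have h2 : ‖ev (Q.state O' t - Q.state O t)‖ ^ 2 ≤
      (∑ s ∈ range t, √(4 * dw Q O O' (Q.state O s))) ^ 2 :=
    pow_le_pow_left₀ (norm_nonneg _) h1 2
  have h3 := sq_sum_le_card_mul_sum_sq (s := range t)
    (f := fun s => √(4 * dw Q O O' (Q.state O s)))
  rw [card_range] at h3
  refine h2.trans (h3.trans (le_of_eq ?_))
  have h4 : ∀ s ∈ range t, √(4 * dw Q O O' (Q.state O s)) ^ 2 =
      4 * dw Q O O' (Q.state O s) := fun s _ =>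
    Real.sq_sqrt (mul_nonneg (by norm_num) (dw_nonneg _ _ _ _))
  rw [Finset.sum_congr rfl h4, ← Finset.mul_sum]
  ring

theorem abs_sum_sub {ι : Type} [Fintype ι] (S : Finset ι) (v w : ι → ℂ)
    (hv : ‖ev v‖ = 1) (hw : ‖ev w‖ = 1) :
    |∑ i ∈ S, ‖v i‖ ^ 2 - ∑ i ∈ S, ‖w i‖ ^ 2| ≤ 2 * ‖ev (v - w)‖ := by
  have h0 : ∀ i, |‖v i‖ ^ 2 - ‖w i‖ ^ 2| ≤ (‖v i‖ + ‖w i‖) * ‖(v - w) i‖ := by
    intro i
    have : ‖v i‖ ^ 2 - ‖w i‖ ^ 2 = (‖v i‖ + ‖w i‖) * (‖v i‖ - ‖w i‖) := by ring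
    rw [this, abs_mul, abs_of_nonneg (by positivity)]
    refine mul_le_mul_of_nonneg_left ?_ (by positivity)
    simpa using abs_norm_sub_norm_le (v i) (w i)
  have h1 : |∑ i ∈ S, ‖v i‖ ^ 2 - ∑ i ∈ S, ‖w i‖ ^ 2| ≤
      ∑ i, (‖v i‖ + ‖w i‖) * ‖(v - w) i‖ := by
    rw [← Finset.sum_sub_distrib]
    refine (Finset.abs_sum_le_sum_abs _ _).trans ?_
    refine (Finset.sum_le_sum fun i _ => h0 i).trans ?_
    exact Finset.sum_le_sum_of_subset_of_nonneg (Finset.subset_univ _)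
      fun _ _ _ => by positivity
  have hs : ∀ χ : ι → ℂ, √(∑ i, ‖χ i‖ ^ 2) = ‖ev χ‖ := by
    intro χ
    rw [← norm_ev_sq, Real.sqrt_sq (norm_nonneg _)]
  have h2 : ∀ χ : ι → ℂ, ‖ev χ‖ = 1 → ∑ i, ‖χ i‖ * ‖(v - w) i‖ ≤ ‖ev (v - w)‖ := by
    intro χ hχ
    have h := Real.sum_mul_le_sqrt_mul_sqrt Finset.univ (fun i => ‖χ i‖) (fun i => ‖(v - w) i‖)
    rw [hs χ, hs (v - w), hχ, one_mul] at h
    exact h
  calc |∑ i ∈ S, ‖v i‖ ^ 2 - ∑ i ∈ S, ‖w i‖ ^ 2| ≤ ∑ i, (‖v i‖ + ‖w i‖) * ‖(v - w) i‖ := h1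
    _ = (∑ i, ‖v i‖ * ‖(v - w) i‖) + ∑ i, ‖w i‖ * ‖(v - w) i‖ := by
      rw [← Finset.sum_add_distrib]; exact Finset.sum_congr rfl fun i _ => by ring
    _ ≤ ‖ev (v - w)‖ + ‖ev (v - w)‖ := add_le_add (h2 v hv) (h2 w hw)
    _ = 2 * ‖ev (v - w)‖ := by ring

theorem abs_prob_sub (Q : QAlg) (O O' : List Bool → Bool) :
    |Q.prob O' - Q.prob O| ≤ 2 * ‖ev (Q.state O' Q.T - Q.state O Q.T)‖ := by
  unfold QAlg.prob
  exact abs_sum_sub Q.acc _ _ (norm_state Q O' _) (norm_state Q O _)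

/-- The phases differ only if the oracles differ at the query. -/
theorem phase_ne (Q : QAlg) (O O' : List Bool → Bool) (i : Q.basis)
    (h : Q.phase O' i ≠ Q.phase O i) : ∃ w, Q.query i = some w ∧ O' w ≠ O w := by
  unfold QAlg.phase at h
  cases hq : Q.query i with
  | none => rw [hq] at h; exact absurd rfl h
  | some w =>
    refine ⟨w, rfl, fun e => ?_⟩
    rw [hq] at h
    simp only [e] at h
    exact h rfl

theorem sum_dw (X : Type) [Fintype X] [DecidableEq X] (Q : QAlg)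
    (O : List Bool → Bool) (O' : X → List Bool → Bool) (K : ℕ)
    (hK : ∀ i w, Q.query i = some w → (univ.filter fun x => O' x w ≠ O w).card ≤ K)
    (v : Q.basis → ℂ) : ∑ x, dw Q O (O' x) v ≤ K * ‖ev v‖ ^ 2 := by
  unfold dw
  rw [Finset.sum_comm, norm_ev_sq, Finset.mul_sum]
  refine Finset.sum_le_sum fun i _ => ?_
  rw [← Finset.sum_filter, Finset.sum_const, nsmul_eq_mul]
  refine mul_le_mul_of_nonneg_right ?_ (by positivity)
  norm_cast
  cases hq : Q.query i with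
  | none =>
    have h0 : (univ.filter fun x => Q.phase (O' x) i ≠ Q.phase O i) = ∅ := by
      rw [Finset.filter_eq_empty_iff]
      intro x _ h
      obtain ⟨w, hw, _⟩ := phase_ne Q O (O' x) i h
      rw [hq] at hw
      cases hw
    rw [h0, Finset.card_empty]
    exact Nat.zero_le _
  | some w =>
    refine le_trans (Finset.card_le_card ?_) (hK i w hq)
    intro x hx
    rw [Finset.mem_filter] at hx ⊢
    obtain ⟨w', hw, hne⟩ := phase_ne Q O (O' x) i hx.2
    rw [hq] at hw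
    cases hw
    exact ⟨Finset.mem_univ _, hne⟩

theorem t_bbv : T_BBV := by
  intro X _ _ _ Q O O' K hK
  have hX : (0 : ℝ) < Fintype.card X := by exact_mod_cast Fintype.card_pos
  have h1 : ∑ x, ‖ev (Q.state (O' x) Q.T - Q.state O Q.T)‖ ^ 2 ≤ 4 * (Q.T : ℝ) ^ 2 * K := by
    calc ∑ x, ‖ev (Q.state (O' x) Q.T - Q.state O Q.T)‖ ^ 2
        ≤ ∑ x, 4 * (Q.T : ℝ) * ∑ s ∈ range Q.T, dw Q O (O' x) (Q.state O s) :=
          Finset.sum_le_sum fun x _ => norm_state_sub_sq Q O (O' x) Q.T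
      _ = 4 * (Q.T : ℝ) * ∑ s ∈ range Q.T, ∑ x, dw Q O (O' x) (Q.state O s) := by
          rw [← Finset.mul_sum, Finset.sum_comm]
      _ ≤ 4 * (Q.T : ℝ) * ∑ s ∈ range Q.T, (K : ℝ) := by
          refine mul_le_mul_of_nonneg_left ?_ (by positivity)
          refine Finset.sum_le_sum fun s _ => ?_
          have h := sum_dw X Q O O' K hK (Q.state O s)
          rw [norm_state, one_pow, mul_one] at h
          exact h
      _ = 4 * (Q.T : ℝ) ^ 2 * K := by
          rw [Finset.sum_const, Finset.card_range, nsmul_eq_mul]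
          ring
  obtain ⟨x, _, hx⟩ := Finset.exists_le_of_sum_le (s := (univ : Finset X))
    (f := fun x => ‖ev (Q.state (O' x) Q.T - Q.state O Q.T)‖ ^ 2)
    (g := fun _ => 4 * (Q.T : ℝ) ^ 2 * K / Fintype.card X) Finset.univ_nonempty (by
      rw [Finset.sum_const, Finset.card_univ, nsmul_eq_mul]
      rw [mul_div_cancel₀ _ hX.ne']
      exact h1)
  refine ⟨x, (abs_prob_sub Q O (O' x)).trans ?_⟩
  have h2 : ‖ev (Q.state (O' x) Q.T - Q.state O Q.T)‖ ≤ 2 * Q.T * √(K / Fintype.card X) := by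
    refine abs_le_of_sq_le_sq' ?_ (by positivity) |>.2
    rw [mul_pow, Real.sq_sqrt (by positivity)]
    refine hx.trans (le_of_eq ?_)
    ring
  calc 2 * ‖ev (Q.state (O' x) Q.T - Q.state O Q.T)‖ ≤ 2 * (2 * Q.T * √(K / Fintype.card X)) :=
        mul_le_mul_of_nonneg_left h2 (by norm_num)
    _ = 4 * Q.T * √(K / Fintype.card X) := by ring

end Pool.Agent.H59.NB.BBV
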