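import Pool.Agent.H6.NB.Targets
import Pool.Agent.H90.AC.IND
import Pool.Agent.H90.AC.PUSH

/-!
# Fourier coefficients and random restrictions
-/

set_option autoImplicit false

namespace Pool.Agent.H59.NB.HTR

open Pool.Agent.H6.NB Finset
open Pool.Agent.H68.AC (PA fd mrg Wt wz ind)

/-- The coordinates in `S` of `a` and the others of `z`. -/
def mix {V : Type} [DecidableEq V] (S : Finset V) (a z : V → Bool) : V → Bool :=
  fun v => if v ∈ S then a v else z v

theorem mix_sum {V : Type} [Fintype V] [DecidableEq V] (S : Finset V) (Φ : (V → Bool) → ℝ) :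
    ∑ a, ∑ z, Φ (mix S a z) = 2 ^ Fintype.card V * ∑ z, Φ z := by
  have h1 : ∑ a, ∑ z, Φ (mix S a z) =
      ∑ p : (V → Bool) × (V → Bool), Φ (mix S p.1 p.2) := by
    rw [Fintype.sum_prod_type]
  have h2 : ∑ p : (V → Bool) × (V → Bool), Φ (mix S p.1 p.2) =
      ∑ p : (V → Bool) × (V → Bool), Φ p.2 := by
    refine Finset.sum_nbij' (fun p => (mix S p.2 p.1, mix S p.1 p.2))
      (fun p => (mix S p.2 p.1, mix S p.1 p.2)) (fun _ _ => Finset.mem_univ _)
      (fun _ _ => Finset.mem_univ _) ?_ ?_ (fun _ _ => rfl)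
    · rintro ⟨a, z⟩ _
      ext v
      · simp only [mix]
        split_ifs <;> rfl
      · simp only [mix]
        split_ifs <;> rfl
    · rintro ⟨a, z⟩ _
      ext v
      · simp only [mix]
        split_ifs <;> rfl
      · simp only [mix]
        split_ifs <;> rfl
  rw [h1, h2, Fintype.sum_prod_type]
  simp only
  rw [Finset.sum_const, Finset.card_univ, nsmul_eq_mul]
  simp

theorem fd_congr {V : Type} {d : ℕ} (R R' : Fin d → PA V) (v : V) (h : ∀ j, R j v = R' j v)
    (k : ℕ) : fd R k v = fd R' k v := by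
  induction k with
  | zero => rfl
  | succ k ih =>
    simp only [fd, mrg]
    rw [ih]
    by_cases hk : k < d
    · simp only [dif_pos hk, h]
    · simp only [dif_neg hk]

theorem fd_none {V : Type} {d : ℕ} (R : Fin d → PA V) (v : V) (h : ∀ j, R j v = none)
    (k : ℕ) : fd R k v = none := by
  induction k with
  | zero => rfl
  | succ k ih =>
    simp only [fd, mrg]
    rw [ih]
    by_cases hk : k < d
    · simp only [dif_pos hk, h]
    · simp only [dif_neg hk]

/-- The Fourier coefficient with the coordinates in `S` left free. -/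
noncomputable def Fh {V : Type} [Fintype V] [DecidableEq V] {d : ℕ} (F : (V → Bool) → ℝ)
    (S : Finset V) (R : Fin d → PA V) : ℝ :=
  (∑ z : V → Bool, F (fun v => if v ∈ S then z v else (fd R d v).getD (z v)) *
    ∏ u ∈ S, sg (z u)) / 2 ^ Fintype.card V

theorem Fh_congr {V : Type} [Fintype V] [DecidableEq V] {d : ℕ} (F : (V → Bool) → ℝ)
    (S : Finset V) (R R' : Fin d → PA V) (h : ∀ j v, v ∉ S → R j v = R' j v) :
    Fh F S R = Fh F S R' := by
  unfold Fh
  congr 1
  refine Finset.sum_congr rfl fun z _ => ?_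
  congr 2
  funext v
  by_cases hv : v ∈ S
  · rw [if_pos hv, if_pos hv]
  · rw [if_neg hv, if_neg hv, fd_congr R R' v (fun j => h j v hv)]

theorem Fh_free {V : Type} [Fintype V] [DecidableEq V] {d : ℕ} (F : (V → Bool) → ℝ)
    (S : Finset V) (R : Fin d → PA V) (h : ∀ j, ∀ v ∈ S, R j v = none) :
    Fh F S R = hat (rst (fd R d) F) S := by
  unfold Fh hat rst
  congr 1
  refine Finset.sum_congr rfl fun z _ => ?_
  congr 2
  funext v
  by_cases hv : v ∈ S
  · rw [if_pos hv, fd_none R v (fun j => h j v hv)]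
    rfl
  · rw [if_neg hv]

theorem chi_mix {V : Type} [DecidableEq V] (S : Finset V) (a z : V → Bool) :
    ∏ u ∈ S, sg (mix S a z u) = ∏ u ∈ S, sg (a u) := by
  refine Finset.prod_congr rfl fun u hu => ?_
  simp only [mix, if_pos hu]

theorem wz_half {V : Type} [Fintype V] (z : V → Bool) :
    wz (1 / 2) z = (1 : ℝ) / 2 ^ Fintype.card V := by
  unfold wz
  have h : ∀ v, (if z v then (1 / 2 : ℝ) else 1 - 1 / 2) = 1 / 2 := by
    intro v
    split_ifs <;> norm_num
  rw [Finset.prod_congr rfl fun v _ => h v, Finset.prod_const, Finset.card_univ, one_div_pow]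

theorem sum_Fh {V : Type} [Fintype V] [DecidableEq V] (d : ℕ) (q : ℝ) (F : (V → Bool) → ℝ)
    (S : Finset V) : ∑ R : Fin d → PA V, Wt q (1 / 2) R * Fh F S R = hat F S := by
  have hN : (2 : ℝ) ^ Fintype.card V ≠ 0 := by positivity
  have h1 : ∀ R : Fin d → PA V, Fh F S R =
      (∑ a : V → Bool, ∑ z : V → Bool,
        F (fun v => if v ∈ S then a v else (fd R d v).getD (z v)) * ∏ u ∈ S, sg (a u)) /
        (2 ^ Fintype.card V * 2 ^ Fintype.card V) := by
    intro R
    have h := mix_sum S (fun z => F (fun v => if v ∈ S then z v else (fd R d v).getD (z v)) *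
      ∏ u ∈ S, sg (z u))
    have h' : ∑ a : V → Bool, ∑ z : V → Bool,
        F (fun v => if v ∈ S then a v else (fd R d v).getD (z v)) * ∏ u ∈ S, sg (a u) =
        ∑ a : V → Bool, ∑ z : V → Bool, F (fun v => if v ∈ S then mix S a z v else
          (fd R d v).getD (mix S a z v)) * ∏ u ∈ S, sg (mix S a z u) := by
      refine Finset.sum_congr rfl fun a _ => Finset.sum_congr rfl fun z _ => ?_
      rw [chi_mix]
      congr 2
      funext v
      by_cases hv : v ∈ S
      · simp only [if_pos hv, mix]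
      · simp only [if_neg hv, mix]
    rw [h', h, Fh, mul_div_mul_left _ _ hN]
  have h2 : ∑ R : Fin d → PA V, Wt q (1 / 2) R * Fh F S R =
      (∑ a : V → Bool, (∏ u ∈ S, sg (a u)) * ∑ R : Fin d → PA V, ∑ z : V → Bool,
        Wt q (1 / 2) R * wz (1 / 2) z *
          (fun y : V → Bool => F (mix S a y)) (fun v => (fd R d v).getD (z v))) /
        2 ^ Fintype.card V := by
    have h3 : ∀ R : Fin d → PA V, Wt q (1 / 2) R * Fh F S R =
        (∑ a : V → Bool, (∏ u ∈ S, sg (a u)) * ∑ z : V → Bool, Wt q (1 / 2) R * wz (1 / 2) z *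
          F (mix S a fun v => (fd R d v).getD (z v))) / 2 ^ Fintype.card V := by
      intro R
      rw [h1, ← div_div, mul_div_assoc', ← mul_div_assoc]
      congr 1
      rw [Finset.mul_sum, Finset.sum_div]
      refine Finset.sum_congr rfl fun a _ => ?_
      rw [Finset.mul_sum, Finset.mul_sum, Finset.sum_div]
      refine Finset.sum_congr rfl fun z _ => ?_
      rw [wz_half]
      unfold mix
      field_simp
    rw [Finset.sum_congr rfl fun R _ => h3 R, ← Finset.sum_div, Finset.sum_comm]
    congr 1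
    refine Finset.sum_congr rfl fun a _ => ?_
    rw [Finset.mul_sum]
  have h4 : ∀ a : V → Bool, ∑ R : Fin d → PA V, ∑ z : V → Bool,
        Wt q (1 / 2) R * wz (1 / 2) z *
          (fun y : V → Bool => F (mix S a y)) (fun v => (fd R d v).getD (z v)) =
      ∑ z : V → Bool, wz (1 / 2) z * F (mix S a z) := fun a =>
    Pool.Agent.H90.AC.PUSH V d q (1 / 2) (fun y : V → Bool => F (mix S a y))
  rw [h2]
  simp only [h4]
  have h5 := mix_sum S (fun y => F y * ∏ u ∈ S, sg (y u))
  have h6 : ∑ a : V → Bool, (∏ u ∈ S, sg (a u)) * ∑ z : V → Bool, wz (1 / 2) z * F (mix S a z) =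
      (∑ a : V → Bool, ∑ z : V → Bool, F (mix S a z) * ∏ u ∈ S, sg (mix S a z u)) /
        2 ^ Fintype.card V := by
    rw [Finset.sum_div]
    refine Finset.sum_congr rfl fun a _ => ?_
    rw [Finset.mul_sum, Finset.sum_div]
    refine Finset.sum_congr rfl fun z _ => ?_
    rw [chi_mix, wz_half]
    ring
  rw [h6, h5, mul_comm, mul_div_assoc, div_self hN, mul_one, hat]

theorem t_htr : T_HTR := by
  intro V _ _ d q F S hq hq1
  have h1 := Pool.Agent.H90.AC.IND V d q (1 / 2) S (Fh F S) (Fh_congr F S)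
  rw [sum_Fh] at h1
  have h2 : q ^ (d * S.card) * |hat F S| = |q ^ (d * S.card) * hat F S| := by
    rw [abs_mul, abs_of_nonneg (pow_nonneg hq.le _)]
  rw [h2, h1]
  refine (Finset.abs_sum_le_sum_abs _ _).trans (Finset.sum_le_sum fun R _ => ?_)
  have hW : 0 ≤ Wt q (1 / 2) R :=
    Pool.Agent.H90.AC.Wt_nonneg hq.le hq1 (by norm_num) (by norm_num) R
  rw [abs_mul, abs_of_nonneg hW]
  refine mul_le_mul_of_nonneg_left ?_ hW
  by_cases h : ∀ j, ∀ v ∈ S, R j v = none
  · rw [Pool.Agent.H90.AC.ind_true h, one_mul, Fh_free F S R h]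
  · rw [Pool.Agent.H90.AC.ind_false h, zero_mul, abs_zero]
    exact abs_nonneg _

end Pool.Agent.H59.NB.HTR
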